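import Pool.Agent.Lib.MP_524519_ag.DU5.TR.Iface

/-! NAK: Nakayama's lemma. -/

set_option autoImplicit false

namespace Pool.Agent.DU5.TR.H18

open MvPowerSeries

theorem len_mono {k R : Type} [Field k] [CommRing R] [Algebra k R] {I J : Ideal R} (h : I < J) :
    len k J + 1 ≤ len k I := by
  unfold len
  have hs : Function.Surjective (Ideal.Quotient.factorₐ k h.le).toLinearMap :=
    Ideal.Quotient.factor_surjective h.le
  have hle := Module.length_eq_add_of_exact
    (LinearMap.ker (Ideal.Quotient.factorₐ k h.le).toLinearMap).subtype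
    (Ideal.Quotient.factorₐ k h.le).toLinearMap (Submodule.injective_subtype _) hs
    (LinearMap.exact_subtype_ker_map _)
  rw [hle, add_comm]
  refine add_le_add_left ?_ _
  have : Nontrivial (LinearMap.ker (Ideal.Quotient.factorₐ k h.le).toLinearMap) := by
    obtain ⟨a, ha, hb⟩ := Set.exists_of_ssubset h
    refine ⟨⟨⟨Ideal.Quotient.mk I a, ?_⟩, 0, ?_⟩⟩
    · rw [LinearMap.mem_ker]
      exact Ideal.Quotient.eq_zero_iff_mem.2 ha
    · intro h0
      exact hb (Ideal.Quotient.eq_zero_iff_mem.1 (congrArg Subtype.val h0))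
  exact Order.one_le_iff_pos.2 Module.length_pos

variable {k : Type} [Field k] {n : ℕ}

theorem MO_zero : MO k n 0 = ⊤ := by
  rw [eq_top_iff]
  intro h _ α hα
  exact absurd hα (Nat.not_lt_zero _)

theorem MO_anti {a b : ℕ} (h : a ≤ b) : MO k n b ≤ MO k n a := fun _ hx α hα =>
  hx α (lt_of_lt_of_le hα h)

open Classical in
/-- a variable which occurs in the monomial -/
noncomputable def sel (α : Fin n →₀ ℕ) : Option (Fin n) :=
  if h : ∃ i, α i ≠ 0 then some h.choose else none

theorem sel_spec {α : Fin n →₀ ℕ} (h : α ≠ 0) : ∃ i, sel α = some i ∧ Finsupp.single i 1 ≤ α := by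
  have h' : ∃ i, α i ≠ 0 := by
    by_contra hc
    push Not at hc
    exact h (Finsupp.ext hc)
  refine ⟨h'.choose, dif_pos h', ?_⟩
  rw [Finsupp.single_le_iff]
  exact Nat.one_le_iff_ne_zero.2 h'.choose_spec

/-- the part of `h / X i` -/
noncomputable def prt (h : O k n) (i : Fin n) : O k n := fun β =>
  if sel (β + Finsupp.single i 1) = some i then coeff (β + Finsupp.single i 1) h else 0

theorem coeff_prt (h : O k n) (i : Fin n) (β : Fin n →₀ ℕ) : coeff β (prt h i) =
    if sel (β + Finsupp.single i 1) = some i then coeff (β + Finsupp.single i 1) h else 0 := rfl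

theorem sum_prt {j : ℕ} {h : O k n} (hh : h ∈ MO k n (j + 1)) : ∑ i, X i * prt h i = h := by
  classical
  ext α
  rw [map_sum]
  have e : ∀ i ∈ Finset.univ, coeff α (X i * prt h i) =
      if Finsupp.single i 1 ≤ α ∧ sel α = some i then coeff α h else 0 := fun i _ => by
    rw [X_def, coeff_monomial_mul, one_mul]
    by_cases h1 : Finsupp.single i 1 ≤ α
    · rw [if_pos h1, coeff_prt, tsub_add_cancel_of_le h1]
      by_cases h2 : sel α = some i
      · rw [if_pos h2, if_pos ⟨h1, h2⟩]
      · rw [if_neg h2, if_neg (fun h3 => h2 h3.2)]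
    · rw [if_neg h1, if_neg (fun h3 => h1 h3.1)]
  rw [Finset.sum_congr rfl e]
  rcases eq_or_ne α 0 with h0 | h0
  · subst h0
    rw [hh 0 (by rw [map_zero]; exact Nat.succ_pos j)]
    simp
  · obtain ⟨i0, hi, hle⟩ := sel_spec h0
    rw [Finset.sum_eq_single i0]
    · rw [if_pos ⟨hle, hi⟩]
    · intro i _ hne
      rw [if_neg]
      rintro ⟨-, h3⟩
      rw [hi] at h3
      exact hne (Option.some.inj h3).symm
    · intro h4
      exact absurd (Finset.mem_univ i0) h4

theorem prt_mem {j : ℕ} {h : O k n} (hh : h ∈ MO k n (j + 1)) (i : Fin n) :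
    prt h i ∈ MO k n j := by
  classical
  intro β hβ
  rw [coeff_prt]
  split_ifs with h1
  · refine hh _ ?_
    rw [map_add, Finsupp.degree_single]
    omega
  · rfl

theorem X_mem (i : Fin n) : (X i : O k n) ∈ IsLocalRing.maximalIdeal (O k n) := by
  rw [IsLocalRing.mem_maximalIdeal, mem_nonunits_iff, MvPowerSeries.isUnit_iff_constantCoeff]
  simp

theorem MO_succ (j : ℕ) : MO k n (j + 1) ≤ IsLocalRing.maximalIdeal (O k n) • MO k n j := by
  intro h hh
  rw [← sum_prt hh]
  exact Submodule.sum_mem _ fun i _ => Submodule.smul_mem_smul (X_mem i) (prt_mem hh i)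

theorem nak : NakStatement := by
  intro n m k _ I hI
  by_cases hex : ∃ j ≤ m, MO k n j ≤ I ⊔ MO k n (j + 1)
  · obtain ⟨j, hj, hle⟩ := hex
    have h1 : MO k n j ≤ I := by
      refine Submodule.le_of_le_smul_of_le_jacobson_bot (I := IsLocalRing.maximalIdeal (O k n))
        (IsNoetherian.noetherian _) (IsLocalRing.maximalIdeal_le_jacobson ⊥) ?_
      exact hle.trans (sup_le_sup_left (MO_succ j) I)
    have h2 : MO k n (m + 1) ≤ I := (MO_anti (by omega)).trans h1
    refine ⟨?_, h2⟩
    rwa [sup_eq_left.2 h2] at hI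
  · exfalso
    push Not at hex
    have key : ∀ t : ℕ, t ≤ m + 1 → (t : ℕ∞) ≤ len k (I ⊔ MO k n t) := by
      intro t
      induction t with
      | zero => intro _; simp
      | succ t ih =>
        intro ht
        have h3 : I ⊔ MO k n (t + 1) < I ⊔ MO k n t := by
          refine lt_of_le_of_ne (sup_le_sup_left (MO_anti (Nat.le_succ t)) I) ?_
          intro he
          exact hex t (by omega) (by rw [he]; exact le_sup_right)
        have h4 := len_mono (k := k) h3
        refine le_trans ?_ h4
        push_cast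
        exact add_le_add_left (ih (by omega)) 1
    have h5 := (key (m + 1) le_rfl).trans hI
    have h6 : m + 1 ≤ m := by exact_mod_cast h5
    omega

end Pool.Agent.DU5.TR.H18
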