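import Pool.Agent.Lib.MP_524519_ag.DU5.TR.Iface

/-! NICF: the derivation of the fraction field of `F⟦τ⟧`. -/

set_option autoImplicit false

namespace Pool.Agent.DU5.TR.H18

theorem nicf (h : DfrStatement) : NicfStatement := by
  intro p hp F _ _
  obtain ⟨D', h1, h2⟩ := h F (PowerSeries F) (PowerSeries.derivative F)
  have hpc : (p : PowerSeries F) = 0 := by
    have e : (p : PowerSeries F) = PowerSeries.C (p : F) :=
      (map_natCast (PowerSeries.C (R := F)) p).symm
    rw [e, CharP.cast_eq_zero, map_zero]
  refine ⟨D', h1, h2 p hp.out.pos ?_ ?_, algebraMap (PowerSeries F) _ PowerSeries.X, ?_⟩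
  · intro a b
    rw [Derivation.leibniz, Derivation.leibniz_pow, nsmul_eq_mul, hpc, zero_mul, smul_zero,
      add_zero, smul_eq_mul]
  · intro a
    ext m
    rw [PowerSeries.coeff_iterate_derivative, map_zero]
    have h3 : ((m + 1).ascFactorial p : F) = 0 := by
      rw [CharP.cast_eq_zero_iff F p]
      exact (hp.out.dvd_factorial.2 le_rfl).trans (Nat.factorial_dvd_ascFactorial _ _)
    rw [h3, zero_mul]
  · rw [h1, PowerSeries.derivative_X, map_one]

end Pool.Agent.DU5.TR.H18
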